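import Pool.Agent.Helper57.NX.Defs

/-!
# Project NX, NX-1: elementary facts about averages and variation on `ZMod N`
-/

set_option autoImplicit false

open Finset
open scoped BigOperators ComplexConjugate

namespace Pool.Agent.Helper57.NX

noncomputable section

/-! ### the exponential -/

theorem norm_e (t : ℝ) : ‖e t‖ = 1 := by
  have h : e t = Complex.exp ((2 * Real.pi * t : ℝ) * Complex.I) := by
    unfold e; push_cast; rfl
  rw [h, Complex.norm_exp_ofReal_mul_I]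

theorem e_zero : e 0 = 1 := by simp [e]

theorem e_add (s t : ℝ) : e (s + t) = e s * e t := by
  unfold e
  rw [← Complex.exp_add]
  congr 1
  push_cast
  ring

theorem e_neg (t : ℝ) : e (-t) = conj (e t) := by
  unfold e
  rw [← Complex.exp_conj, map_mul, map_mul, map_mul, Complex.conj_I, Complex.conj_ofReal,
    Complex.conj_ofReal, map_ofNat]
  congr 1
  push_cast
  ring

theorem e_int (n : ℤ) : e n = 1 := by
  unfold e
  have h : (2 * Real.pi * ((n : ℝ) : ℂ) * Complex.I) = n * (2 * Real.pi * Complex.I) := by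
    push_cast; ring
  rw [h, Complex.exp_int_mul_two_pi_mul_I]

theorem norm_e_sub_one (t : ℝ) : ‖e t - 1‖ = ‖2 * Real.sin (Real.pi * t)‖ := by
  have h : e t = Complex.exp (Complex.I * ((2 * Real.pi * t : ℝ) : ℂ)) := by
    unfold e; push_cast; ring_nf
  rw [h, Complex.norm_exp_I_mul_ofReal_sub_one]
  congr 3
  ring

theorem norm_e_sub_e_le (s t : ℝ) : ‖e s - e t‖ ≤ 2 * Real.pi * |s - t| := by
  have h : e s - e t = e t * (e (s - t) - 1) := by
    rw [mul_sub, ← e_add, mul_one]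
    congr 2
    ring
  rw [h, norm_mul, norm_e, one_mul, norm_e_sub_one, norm_mul, Real.norm_eq_abs, Real.norm_eq_abs,
    abs_of_pos (by norm_num : (0 : ℝ) < 2)]
  have h2 : |Real.sin (Real.pi * (s - t))| ≤ |Real.pi * (s - t)| := Real.abs_sin_le_abs
  rw [abs_mul, abs_of_pos Real.pi_pos] at h2
  linarith

/-- lower bound for `|1 - e θ|` -/
theorem four_mul_abs_le (θ : ℝ) (h : |θ| ≤ 1 / 2) : 4 * |θ| ≤ ‖1 - e θ‖ := by
  rw [norm_sub_rev, norm_e_sub_one, norm_mul, Real.norm_eq_abs, Real.norm_eq_abs,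
    abs_of_pos (by norm_num : (0 : ℝ) < 2)]
  have h1 : |Real.sin (Real.pi * θ)| = |Real.sin (Real.pi * |θ|)| := by
    rcases abs_cases θ with ⟨h0, -⟩ | ⟨h0, -⟩
    · rw [h0]
    · rw [h0, mul_neg, Real.sin_neg, abs_neg]
  have h2 : 2 / Real.pi * (Real.pi * |θ|) ≤ Real.sin (Real.pi * |θ|) :=
    Real.mul_le_sin (by positivity) (by nlinarith [Real.pi_pos])
  have h3 : 2 / Real.pi * (Real.pi * |θ|) = 2 * |θ| := by
    have := Real.pi_ne_zero
    field_simp
  rw [h3] at h2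
  rw [h1]
  have h4 := le_abs_self (Real.sin (Real.pi * |θ|))
  linarith

/-! ### averages -/

theorem norm_expect_le5 {ι : Type*} (s : Finset ι) (f : ι → ℂ) :
    ‖𝔼 i ∈ s, f i‖ ≤ 𝔼 i ∈ s, ‖f i‖ := RCLike.norm_expect_le (K := ℂ)

theorem expect_le_of5 {ι : Type*} (s : Finset ι) (f : ι → ℝ) {M : ℝ} (hM : 0 ≤ M)
    (h : ∀ i ∈ s, f i ≤ M) : 𝔼 i ∈ s, f i ≤ M := by
  rcases s.eq_empty_or_nonempty with rfl | hs
  · simpa using hM
  · exact expect_le hs h

theorem norm_expect_le_of5 {ι : Type*} (s : Finset ι) (f : ι → ℂ) {M : ℝ} (hM : 0 ≤ M)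
    (h : ∀ i ∈ s, ‖f i‖ ≤ M) : ‖𝔼 i ∈ s, f i‖ ≤ M :=
  (norm_expect_le5 s f).trans (expect_le_of5 s _ hM h)

section Basic
variable {N : ℕ} [NeZero N]

theorem expect_shift {M : Type} [AddCommMonoid M] [Module ℚ≥0 M] (f : ZMod N → M) (t : ZMod N) :
    𝔼 x, f (x + t) = 𝔼 x, f x :=
  Fintype.expect_equiv (Equiv.addRight t) _ _ (fun _ => rfl)

theorem expect_shift_sub5 {M : Type} [AddCommMonoid M] [Module ℚ≥0 M] (f : ZMod N → M)
    (t : ZMod N) : 𝔼 x, f (x - t) = 𝔼 x, f x := by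
  simp only [sub_eq_add_neg]
  exact expect_shift f (-t)

omit [NeZero N] in
theorem norm_A_le_of5 {f : ZMod N → ℂ} {M : ℝ} (hM : 0 ≤ M) (hf : ∀ x, ‖f x‖ ≤ M) (L : ℕ)
    (x : ZMod N) : ‖A L f x‖ ≤ M :=
  norm_expect_le_of5 _ _ hM fun _ _ => hf _

theorem norm_A_le {f : ZMod N → ℂ} (hf : ∀ x, ‖f x‖ ≤ 1) (L : ℕ) (x : ZMod N) :
    ‖A L f x‖ ≤ 1 := norm_expect_le_of5 _ _ zero_le_one fun _ _ => hf _

theorem norm_Ab_le {f : ZMod N → ℂ} (hf : ∀ x, ‖f x‖ ≤ 1) (L : ℕ) (x : ZMod N) :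
    ‖Ab L f x‖ ≤ 1 := norm_expect_le_of5 _ _ zero_le_one fun _ _ => hf _

theorem A_comm (L L' : ℕ) (f : ZMod N → ℂ) : A L (A L' f) = A L' (A L f) := by
  funext x
  unfold A
  rw [expect_comm]
  refine expect_congr rfl fun a _ => expect_congr rfl fun b _ => ?_
  rw [add_right_comm]

theorem A_Ab_comm (L L' : ℕ) (f : ZMod N → ℂ) : A L (Ab L' f) = Ab L' (A L f) := by
  funext x
  unfold A Ab
  rw [expect_comm]
  refine expect_congr rfl fun a _ => expect_congr rfl fun b _ => ?_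
  rw [add_sub_right_comm]

theorem A_sub (L : ℕ) (f g : ZMod N → ℂ) :
    A L (fun x => f x - g x) = fun x => A L f x - A L g x := by
  funext x
  exact expect_sub_distrib _ _ _

theorem Ab_sub (L : ℕ) (f g : ZMod N → ℂ) :
    Ab L (fun x => f x - g x) = fun x => Ab L f x - Ab L g x := by
  funext x
  exact expect_sub_distrib _ _ _

/-- `A` and `Ab` are adjoint (bilinear form) -/
theorem adj_A (L : ℕ) (f g : ZMod N → ℂ) :
    𝔼 x, A L f x * g x = 𝔼 x, f x * Ab L g x := by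
  unfold A Ab
  simp only [expect_mul, mul_expect]
  rw [expect_comm, expect_comm (s := univ) (t := range L)]
  refine expect_congr rfl fun a _ => ?_
  rw [← expect_shift (fun x => f x * g (x - (a : ZMod N))) (a : ZMod N)]
  refine expect_congr rfl fun x _ => ?_
  rw [add_sub_cancel_right]

theorem nrm_nonneg (f : ZMod N → ℂ) : 0 ≤ nrm f := expect_nonneg fun _ _ => norm_nonneg _

theorem nrm_le_one {f : ZMod N → ℂ} (hf : ∀ x, ‖f x‖ ≤ 1) : nrm f ≤ 1 :=
  expect_le_of5 _ _ zero_le_one fun x _ => hf x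

theorem nrm_A_le (L : ℕ) (f : ZMod N → ℂ) : nrm (A L f) ≤ nrm f := by
  have h1 : nrm (A L f) ≤ 𝔼 x : ZMod N, 𝔼 a ∈ range L, ‖f (x + (a : ZMod N))‖ :=
    expect_le_expect fun x _ => norm_expect_le5 _ _
  rw [expect_comm] at h1
  refine h1.trans (expect_le_of5 _ _ (nrm_nonneg f) fun a _ => ?_)
  exact (expect_shift (fun x => ‖f x‖) (a : ZMod N)).le

theorem nrm_Ab_le (L : ℕ) (f : ZMod N → ℂ) : nrm (Ab L f) ≤ nrm f := by
  have h1 : nrm (Ab L f) ≤ 𝔼 x : ZMod N, 𝔼 a ∈ range L, ‖f (x - (a : ZMod N))‖ :=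
    expect_le_expect fun x _ => norm_expect_le5 _ _
  rw [expect_comm] at h1
  refine h1.trans (expect_le_of5 _ _ (nrm_nonneg f) fun a _ => ?_)
  exact (expect_shift_sub5 (fun x => ‖f x‖) (a : ZMod N)).le

theorem nrm_add_le (f g : ZMod N → ℂ) : nrm (fun x => f x + g x) ≤ nrm f + nrm g := by
  unfold nrm
  rw [← expect_add_distrib]
  exact expect_le_expect fun x _ => norm_add_le _ _

theorem nrm_sub_le (f g : ZMod N → ℂ) : nrm f ≤ nrm g + nrm (fun x => f x - g x) := by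
  refine le_trans (le_of_eq ?_) (nrm_add_le g (fun x => f x - g x))
  congr 1
  funext x
  ring

/-! ### one-step differences of averages -/

omit [NeZero N] in
theorem A_step5 (L : ℕ) (f : ZMod N → ℂ) (x : ZMod N) :
    A L f (x + 1) - A L f x = (f (x + (L : ZMod N)) - f x) / L := by
  unfold A
  rw [← expect_sub_distrib, expect_eq_sum_div_card, card_range]
  congr 1
  have h := Finset.sum_range_sub (fun a : ℕ => f (x + (a : ZMod N))) L
  simp only [Nat.cast_zero, add_zero] at h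
  rw [← h]
  refine sum_congr rfl fun a _ => ?_
  push_cast
  rw [add_assoc, add_comm 1 (a : ZMod N)]

omit [NeZero N] in
theorem Ab_step5 (L : ℕ) (f : ZMod N → ℂ) (x : ZMod N) :
    Ab L f (x + 1) - Ab L f x = (f (x + 1) - f (x + 1 - (L : ZMod N))) / L := by
  unfold Ab
  rw [← expect_sub_distrib, expect_eq_sum_div_card, card_range]
  congr 1
  have h := Finset.sum_range_sub' (fun a : ℕ => f (x + 1 - (a : ZMod N))) L
  simp only [Nat.cast_zero, sub_zero] at h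
  rw [← h]
  refine sum_congr rfl fun a _ => ?_
  push_cast
  congr 2
  ring

omit [NeZero N] in
theorem norm_A_step5 {f : ZMod N → ℂ} {M : ℝ} (hf : ∀ x, ‖f x‖ ≤ M) (L : ℕ) (x : ZMod N) :
    ‖A L f (x + 1) - A L f x‖ ≤ 2 * M / L := by
  rw [A_step5, norm_div, Complex.norm_natCast]
  refine div_le_div_of_nonneg_right ?_ (Nat.cast_nonneg _)
  refine (norm_sub_le _ _).trans ?_
  have h1 := hf (x + (L : ZMod N))
  have h2 := hf x
  linarith

omit [NeZero N] in
theorem norm_Ab_step5 {f : ZMod N → ℂ} {M : ℝ} (hf : ∀ x, ‖f x‖ ≤ M) (L : ℕ) (x : ZMod N) :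
    ‖Ab L f (x + 1) - Ab L f x‖ ≤ 2 * M / L := by
  rw [Ab_step5, norm_div, Complex.norm_natCast]
  refine div_le_div_of_nonneg_right ?_ (Nat.cast_nonneg _)
  refine (norm_sub_le _ _).trans ?_
  have h1 := hf (x + 1)
  have h2 := hf (x + 1 - (L : ZMod N))
  linarith

omit [NeZero N] in
/-- telescoping -/
theorem norm_shift_nat5 (g : ZMod N → ℂ) (x : ZMod N) (t : ℕ) :
    ‖g (x + (t : ZMod N)) - g x‖ ≤
      ∑ j ∈ range t, ‖g (x + (j : ZMod N) + 1) - g (x + (j : ZMod N))‖ := by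
  have h := Finset.sum_range_sub (fun a : ℕ => g (x + (a : ZMod N))) t
  simp only [Nat.cast_zero, add_zero] at h
  rw [← h]
  refine (norm_sum_le _ _).trans (le_of_eq (sum_congr rfl fun a _ => ?_))
  push_cast
  rw [add_assoc]

omit [NeZero N] in
theorem norm_shift_int5 {g : ZMod N → ℂ} {c : ℝ} (hg : ∀ x, ‖g (x + 1) - g x‖ ≤ c) (x : ZMod N)
    (t : ℤ) : ‖g (x + (t : ZMod N)) - g x‖ ≤ |(t : ℝ)| * c := by
  have key : ∀ (x : ZMod N) (t : ℕ), ‖g (x + (t : ZMod N)) - g x‖ ≤ t * c := by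
    intro x t
    refine (norm_shift_nat5 g x t).trans ?_
    refine (sum_le_card_nsmul _ _ c fun j _ => hg _).trans (le_of_eq ?_)
    rw [card_range, nsmul_eq_mul]
  rcases Int.eq_nat_or_neg t with ⟨n, rfl | rfl⟩
  · have := key x n
    simpa using this
  · have := key (x - (n : ZMod N)) n
    rw [sub_add_cancel, norm_sub_rev] at this
    simpa [sub_eq_add_neg] using this

/-- pointwise Lipschitz bound for averages -/
theorem A_lipschitz {f : ZMod N → ℂ} (hf : ∀ x, ‖f x‖ ≤ 1) (L : ℕ) (hL : 1 ≤ L) (x : ZMod N)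
    (t : ℤ) : ‖A L f (x + (t : ZMod N)) - A L f x‖ ≤ 2 * |(t : ℝ)| / L := by
  refine (norm_shift_int5 (norm_A_step5 hf L) x t).trans (le_of_eq ?_)
  ring

theorem Ab_lipschitz {f : ZMod N → ℂ} (hf : ∀ x, ‖f x‖ ≤ 1) (L : ℕ) (hL : 1 ≤ L) (x : ZMod N)
    (t : ℤ) : ‖Ab L f (x + (t : ZMod N)) - Ab L f x‖ ≤ 2 * |(t : ℝ)| / L := by
  refine (norm_shift_int5 (norm_Ab_step5 hf L) x t).trans (le_of_eq ?_)
  ring

/-- averages of averages -/
theorem A_A_sub {f : ZMod N → ℂ} (hf : ∀ x, ‖f x‖ ≤ 1) (L L' : ℕ) (hL : 1 ≤ L) (hL' : 1 ≤ L')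
    (x : ZMod N) : ‖A L (A L' f) x - A L' f x‖ ≤ 2 * L / L' := by
  have h1 : A L (A L' f) x - A L' f x
      = 𝔼 a ∈ range L, (A L' f (x + (a : ZMod N)) - A L' f x) := by
    rw [expect_sub_distrib, expect_const (nonempty_range_iff.2 (by omega))]
    rfl
  rw [h1]
  refine norm_expect_le_of5 _ _ (by positivity) fun a ha => ?_
  have h2 := A_lipschitz hf L' hL' x (a : ℤ)
  have h3 : (a : ℝ) ≤ L := by exact_mod_cast (mem_range.1 ha).le
  simp only [Int.cast_natCast, Nat.abs_cast] at h2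
  refine h2.trans ?_
  exact div_le_div_of_nonneg_right (by linarith) (Nat.cast_nonneg _)

theorem nrm_A_mono {f : ZMod N → ℂ} (hf : ∀ x, ‖f x‖ ≤ 1) (L L' : ℕ) (hL : 1 ≤ L)
    (hL' : 1 ≤ L') : nrm (A L' f) ≤ nrm (A L f) + 2 * L / L' := by
  refine (nrm_sub_le (A L' f) (A L (A L' f))).trans ?_
  refine add_le_add ?_ ?_
  · rw [A_comm]
    exact nrm_A_le _ _
  · refine expect_le_of5 _ _ (by positivity) fun x _ => ?_
    rw [norm_sub_rev]
    exact A_A_sub hf L L' hL hL' x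

/-- the long average of `f - A L' f` is small -/
theorem A_small {f : ZMod N → ℂ} (hf : ∀ x, ‖f x‖ ≤ 1) (L L' : ℕ) (hL : 1 ≤ L) (hL' : 1 ≤ L')
    (x : ZMod N) : ‖A L (fun y => f y - A L' f y) x‖ ≤ 2 * L' / L := by
  rw [A_sub, A_comm, norm_sub_rev]
  exact A_A_sub hf L' L hL' hL x

/-! ### variation -/

theorem TV.nonneg {B X : ℝ} {f : ZMod N → ℂ} (h : TV B X f) : 0 ≤ B := by
  have := h 0 0
  simpa using this

omit [NeZero N] in
theorem TV.rhs_nonneg5 {B X : ℝ} {f : ZMod N → ℂ} (h : TV B X f) (l : ℕ) :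
    0 ≤ B * (l / X + 1) :=
  (sum_nonneg fun _ _ => norm_nonneg _).trans (h 0 l)

theorem TV.mono {B B' X X' : ℝ} {f : ZMod N → ℂ} (h : TV B X f) (hB : B ≤ B') (hX' : 0 < X')
    (hX : X' ≤ X) : TV B' X' f := by
  intro x l
  refine (h x l).trans ?_
  have h1 : (l : ℝ) / X ≤ l / X' := div_le_div_of_nonneg_left (Nat.cast_nonneg _) hX' hX
  have h2 : 0 ≤ (l : ℝ) / X' := by positivity
  exact mul_le_mul hB (by linarith) (by
    have : 0 ≤ (l : ℝ) / X := div_nonneg (Nat.cast_nonneg _) (hX'.le.trans hX)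
    linarith) (h.nonneg.trans hB)

theorem TV.rescale {B X X' : ℝ} {f : ZMod N → ℂ} (h : TV B X f) (hX : 0 < X) (hX' : X ≤ X') :
    TV (B * (X' / X)) X' f := by
  intro x l
  refine (h x l).trans ?_
  have hX'0 : 0 < X' := hX.trans_le hX'
  have h1 : 1 ≤ X' / X := by rwa [le_div_iff₀ hX, one_mul]
  have h2 : X' / X * (l / X' + 1) = l / X + X' / X := by
    field_simp
  rw [mul_assoc, h2]
  exact mul_le_mul_of_nonneg_left (by linarith) h.nonneg

theorem TV.add {B B' X : ℝ} {f g : ZMod N → ℂ} (h : TV B X f) (h' : TV B' X g) :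
    TV (B + B') X (fun x => f x + g x) := by
  intro x l
  rw [add_mul]
  refine le_trans ?_ (add_le_add (h x l) (h' x l))
  rw [← sum_add_distrib]
  refine sum_le_sum fun j _ => ?_
  refine le_trans (le_of_eq ?_) (norm_add_le _ _)
  congr 1
  ring

theorem TV.sub {B B' X : ℝ} {f g : ZMod N → ℂ} (h : TV B X f) (h' : TV B' X g) :
    TV (B + B') X (fun x => f x - g x) := by
  intro x l
  rw [add_mul]
  refine le_trans ?_ (add_le_add (h x l) (h' x l))
  rw [← sum_add_distrib]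
  refine sum_le_sum fun j _ => ?_
  refine le_trans (le_of_eq ?_) (norm_sub_le _ _)
  congr 1
  ring

theorem TV.smul {B X : ℝ} {f : ZMod N → ℂ} (h : TV B X f) (z : ℂ) :
    TV (‖z‖ * B) X (fun x => z * f x) := by
  intro x l
  simp only [← mul_sub, norm_mul]
  rw [← mul_sum, mul_assoc]
  exact mul_le_mul_of_nonneg_left (h x l) (norm_nonneg _)

omit [NeZero N] in
theorem sum_expect_le5 {ι : Type*} (s : Finset ι) (g : ι → ZMod N → ℂ) {C : ℝ} (hC : 0 ≤ C) (x : ZMod N)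
    (l : ℕ) (h : ∀ i ∈ s, ∑ j ∈ range l, ‖g i (x + (j : ZMod N) + 1) - g i (x + (j : ZMod N))‖ ≤ C) :
    ∑ j ∈ range l, ‖(𝔼 i ∈ s, g i (x + (j : ZMod N) + 1)) - 𝔼 i ∈ s, g i (x + (j : ZMod N))‖
      ≤ C := by
  have h1 : ∑ j ∈ range l, ‖(𝔼 i ∈ s, g i (x + (j : ZMod N) + 1)) - 𝔼 i ∈ s, g i (x + (j : ZMod N))‖
      ≤ ∑ j ∈ range l, 𝔼 i ∈ s, ‖g i (x + (j : ZMod N) + 1) - g i (x + (j : ZMod N))‖ := by
    refine sum_le_sum fun j _ => ?_
    rw [← expect_sub_distrib]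
    exact norm_expect_le5 _ _
  refine h1.trans ?_
  rw [← expect_sum_comm]
  exact expect_le_of5 _ _ hC h

theorem TV.avg {B X : ℝ} {f : ZMod N → ℂ} (h : TV B X f) (L : ℕ) : TV B X (A L f) := by
  intro x l
  refine sum_expect_le5 (range L) (fun a y => f (y + (a : ZMod N))) (h.rhs_nonneg5 l) x l
    fun a _ => ?_
  refine le_trans (le_of_eq ?_) (h (x + (a : ZMod N)) l)
  refine sum_congr rfl fun j _ => ?_
  congr 3 <;> ring

theorem TV.avgb {B X : ℝ} {f : ZMod N → ℂ} (h : TV B X f) (L : ℕ) : TV B X (Ab L f) := by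
  intro x l
  refine sum_expect_le5 (range L) (fun a y => f (y - (a : ZMod N))) (h.rhs_nonneg5 l) x l
    fun a _ => ?_
  refine le_trans (le_of_eq ?_) (h (x - (a : ZMod N)) l)
  refine sum_congr rfl fun j _ => ?_
  congr 3 <;> ring

omit [NeZero N] in
theorem tv_of_step5 {g : ZMod N → ℂ} {M : ℝ} {L : ℕ} (hM : 0 ≤ M)
    (hg : ∀ x, ‖g (x + 1) - g x‖ ≤ 2 * M / L) : TV (2 * M) L g := by
  intro x l
  refine (sum_le_card_nsmul _ _ (2 * M / L) fun j _ => hg _).trans ?_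
  rw [card_range, nsmul_eq_mul]
  have : 2 * M * ((l : ℝ) / L + 1) = l * (2 * M / L) + 2 * M := by ring
  rw [this]
  linarith

/-- averages are smooth; no variation hypothesis on `f` -/
theorem tv_A {f : ZMod N → ℂ} {M : ℝ} (hf : ∀ x, ‖f x‖ ≤ M) (L : ℕ) (hL : 1 ≤ L) :
    TV (2 * M) L (A L f) :=
  tv_of_step5 ((norm_nonneg _).trans (hf 0)) (norm_A_step5 hf L)

theorem tv_Ab {f : ZMod N → ℂ} {M : ℝ} (hf : ∀ x, ‖f x‖ ≤ M) (L : ℕ) (hL : 1 ≤ L) :
    TV (2 * M) L (Ab L f) :=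
  tv_of_step5 ((norm_nonneg _).trans (hf 0)) (norm_Ab_step5 hf L)

/-! ### admissible functions -/

theorem Adm.mono {B B' X X' : ℝ} {f : ZMod N → ℂ} (h : Adm B X f) (hB : B ≤ B') (hX' : 0 < X')
    (hX : X' ≤ X) : Adm B' X' f := ⟨h.bdd, h.tv.mono hB hX' hX⟩

omit [NeZero N] in
theorem TV.cnj5 {B X : ℝ} {f : ZMod N → ℂ} (h : TV B X f) : TV B X (fun x => conj (f x)) := by
  intro x l
  refine le_trans (le_of_eq ?_) (h x l)
  refine sum_congr rfl fun j _ => ?_
  rw [← map_sub, Complex.norm_conj]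

omit [NeZero N] in
theorem TV.shift5 {B X : ℝ} {f : ZMod N → ℂ} (h : TV B X f) (t : ZMod N) :
    TV B X (fun x => f (x + t)) := by
  intro x l
  refine le_trans (le_of_eq ?_) (h (x + t) l)
  refine sum_congr rfl fun j _ => ?_
  congr 3 <;> ring

theorem Adm.cnj {B X : ℝ} {f : ZMod N → ℂ} (h : Adm B X f) : Adm B X (fun x => conj (f x)) :=
  ⟨fun x => by rw [Complex.norm_conj]; exact h.bdd x, h.tv.cnj5⟩

theorem Adm.shift {B X : ℝ} {f : ZMod N → ℂ} (h : Adm B X f) (t : ZMod N) :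
    Adm B X (fun x => f (x + t)) := ⟨fun x => h.bdd _, h.tv.shift5 t⟩

theorem Adm.mul {B B' X : ℝ} {f g : ZMod N → ℂ} (h : Adm B X f) (h' : Adm B' X g) :
    Adm (B + B') X (fun x => f x * g x) := by
  refine ⟨fun x => ?_, fun x l => ?_⟩
  · rw [norm_mul]
    exact mul_le_one₀ (h.bdd x) (norm_nonneg _) (h'.bdd x)
  · rw [add_mul]
    refine le_trans ?_ (add_le_add (h.tv x l) (h'.tv x l))
    rw [← sum_add_distrib]
    refine sum_le_sum fun j _ => ?_
    set y := x + (j : ZMod N)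
    have e1 : f (y + 1) * g (y + 1) - f y * g y
        = (f (y + 1) - f y) * g (y + 1) + f y * (g (y + 1) - g y) := by ring
    rw [e1]
    refine (norm_add_le _ _).trans ?_
    rw [norm_mul, norm_mul]
    have h1 := mul_le_mul_of_nonneg_left (h'.bdd (y + 1)) (norm_nonneg (f (y + 1) - f y))
    have h2 := mul_le_mul_of_nonneg_right (h.bdd y) (norm_nonneg (g (y + 1) - g y))
    linarith

theorem Adm.prod {ι : Type} (s : Finset ι) {B : ι → ℝ} {X : ℝ} {f : ι → ZMod N → ℂ} (hX : 0 < X)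
    (h : ∀ i ∈ s, Adm (B i) X (f i)) : Adm (∑ i ∈ s, B i) X (fun x => ∏ i ∈ s, f i x) := by
  classical
  induction s using Finset.induction_on with
  | empty =>
    refine ⟨fun x => by simp, fun x l => by simp⟩
  | insert i s hi ih =>
    simp only [prod_insert hi, sum_insert hi]
    exact (h i (mem_insert_self _ _)).mul (ih fun j hj => h j (mem_insert_of_mem hj))

theorem Adm.avg {B X : ℝ} {f : ZMod N → ℂ} (h : Adm B X f) (L : ℕ) : Adm B X (A L f) :=
  ⟨norm_A_le h.bdd L, h.tv.avg L⟩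

theorem Adm.avgb {B X : ℝ} {f : ZMod N → ℂ} (h : Adm B X f) (L : ℕ) : Adm B X (Ab L f) :=
  ⟨norm_Ab_le h.bdd L, h.tv.avgb L⟩

theorem Adm.cub {B X : ℝ} (hX : 0 < X) {f : ZMod N → ℂ} (h : Adm B X f) (k : ℕ) (a b : Fin k → ℕ) :
    Adm (2 ^ k * B) X (cube f a b) := by
  have h1 : ∀ ω ∈ (univ : Finset (Fin k → Bool)),
      Adm B X (fun x => cjj ω (f (x + (tot (sel ω a b) : ZMod N)))) := by
    intro ω _
    unfold cjj
    split_ifs
    · exact h.shift _
    · exact (h.shift _).cnj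
  have h2 := Adm.prod univ hX h1
  have h3 : ∑ _ω : Fin k → Bool, B = 2 ^ k * B := by
    rw [sum_const, card_univ, Fintype.card_pi, nsmul_eq_mul]
    simp
  rw [h3] at h2
  exact h2

/-! ### `L¹` continuity -/

theorem expect_step5 {B X : ℝ} {f : ZMod N → ℂ} (h : TV B X f) (hX : 0 < X) :
    𝔼 x, ‖f (x + 1) - f x‖ ≤ B * (1 / X + 1 / N) := by
  have hN : (0 : ℝ) < N := by exact_mod_cast Nat.pos_of_ne_zero (NeZero.ne N)
  rw [Fintype.expect_eq_sum_div_card, ZMod.card, div_le_iff₀ hN]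
  have h1 : ∑ x : ZMod N, ‖f (x + 1) - f x‖
      = ∑ j ∈ range N, ‖f (0 + (j : ZMod N) + 1) - f (0 + (j : ZMod N))‖ := by
    refine sum_bij' (i := fun x _ => x.val) (j := fun j _ => (j : ZMod N)) ?_ ?_ ?_ ?_ ?_
    · intro x _
      exact mem_range.2 (ZMod.val_lt x)
    · intro j _
      exact mem_univ _
    · intro x _
      exact ZMod.natCast_zmod_val x
    · intro j hj
      exact ZMod.val_natCast_of_lt (mem_range.1 hj)
    · intro x _
      rw [ZMod.natCast_zmod_val, zero_add]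
  rw [h1]
  refine (h 0 N).trans (le_of_eq ?_)
  field_simp

/-- `L¹` continuity of translations -/
theorem TV.l1_shift {B X : ℝ} {f : ZMod N → ℂ} (h : TV B X f) (hX : 0 < X) (t : ℤ) :
    𝔼 x, ‖f (x + (t : ZMod N)) - f x‖ ≤ |(t : ℝ)| * B * (1 / X + 1 / N) := by
  have key : ∀ t : ℕ, 𝔼 x, ‖f (x + (t : ZMod N)) - f x‖ ≤ t * B * (1 / X + 1 / N) := by
    intro t
    have h1 : 𝔼 x, ‖f (x + (t : ZMod N)) - f x‖ ≤
        𝔼 x : ZMod N, ∑ j ∈ range t, ‖f (x + (j : ZMod N) + 1) - f (x + (j : ZMod N))‖ :=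
      expect_le_expect fun x _ => norm_shift_nat5 f x t
    refine h1.trans ?_
    rw [expect_sum_comm]
    refine (sum_le_card_nsmul _ _ (B * (1 / X + 1 / N)) fun j _ => ?_).trans (le_of_eq ?_)
    · rw [expect_shift (fun x => ‖f (x + 1) - f x‖) (j : ZMod N)]
      exact expect_step5 h hX
    · rw [card_range, nsmul_eq_mul]
      ring
  rcases Int.eq_nat_or_neg t with ⟨n, rfl | rfl⟩
  · have := key n
    simpa using this
  · have h1 := key n
    rw [← expect_shift (fun x => ‖f (x + (n : ZMod N)) - f x‖) (-(n : ZMod N))] at h1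
    have h2 : ∀ x : ZMod N, ‖f (x + ((-(n : ℤ) : ℤ) : ZMod N)) - f x‖
        = ‖f (x + -(n : ZMod N) + (n : ZMod N)) - f (x + -(n : ZMod N))‖ := by
      intro x
      rw [neg_add_cancel_right, norm_sub_rev]
      simp
    simp only [h2]
    refine h1.trans (le_of_eq ?_)
    simp

theorem TV.l1_sub_A {B X : ℝ} {f : ZMod N → ℂ} (h : TV B X f) (hX : 0 < X) (L : ℕ) (hL : 1 ≤ L) :
    𝔼 x, ‖f x - A L f x‖ ≤ L * B * (1 / X + 1 / N) := by
  have hB := h.nonneg
  have h1 : ∀ x, ‖f x - A L f x‖ ≤ 𝔼 a ∈ range L, ‖f (x + ((a : ℤ) : ZMod N)) - f x‖ := by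
    intro x
    have h2 : f x - A L f x = 𝔼 a ∈ range L, (f x - f (x + ((a : ℤ) : ZMod N))) := by
      rw [expect_sub_distrib, expect_const (nonempty_range_iff.2 (by omega))]
      simp [A]
    rw [h2]
    refine (norm_expect_le5 _ _).trans (le_of_eq (expect_congr rfl fun a _ => norm_sub_rev _ _))
  refine (expect_le_expect fun x _ => h1 x).trans ?_
  rw [expect_comm]
  refine expect_le_of5 _ _ (by positivity) fun a ha => ?_
  refine (h.l1_shift hX (a : ℤ)).trans ?_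
  have h3 : (a : ℝ) ≤ L := by exact_mod_cast (mem_range.1 ha).le
  rw [Int.cast_natCast, Nat.abs_cast, mul_assoc, mul_assoc]
  exact mul_le_mul_of_nonneg_right h3 (by positivity)

theorem TV.l1_sub_Ab {B X : ℝ} {f : ZMod N → ℂ} (h : TV B X f) (hX : 0 < X) (L : ℕ) (hL : 1 ≤ L) :
    𝔼 x, ‖f x - Ab L f x‖ ≤ L * B * (1 / X + 1 / N) := by
  have hB := h.nonneg
  have h1 : ∀ x, ‖f x - Ab L f x‖ ≤ 𝔼 a ∈ range L, ‖f (x + ((-(a : ℤ) : ℤ) : ZMod N)) - f x‖ := by
    intro x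
    have h2 : f x - Ab L f x = 𝔼 a ∈ range L, (f x - f (x + ((-(a : ℤ) : ℤ) : ZMod N))) := by
      rw [expect_sub_distrib, expect_const (nonempty_range_iff.2 (by omega))]
      simp [Ab, sub_eq_add_neg]
    rw [h2]
    refine (norm_expect_le5 _ _).trans (le_of_eq (expect_congr rfl fun a _ => norm_sub_rev _ _))
  refine (expect_le_expect fun x _ => h1 x).trans ?_
  rw [expect_comm]
  refine expect_le_of5 _ _ (by positivity) fun a ha => ?_
  refine (h.l1_shift hX (-(a : ℤ))).trans ?_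
  have h3 : (a : ℝ) ≤ L := by exact_mod_cast (mem_range.1 ha).le
  rw [Int.cast_neg, Int.cast_natCast, abs_neg, Nat.abs_cast, mul_assoc, mul_assoc]
  exact mul_le_mul_of_nonneg_right h3 (by positivity)

/-! ### high frequencies -/

omit [NeZero N] in
theorem abel5 (f : ZMod N → ℂ) (x : ZMod N) (θ : ℝ) (L : ℕ) :
    (1 - e (-θ)) * ∑ t ∈ range L, f (x + (t : ZMod N)) * e (-(θ * t)) =
      f x - f (x + (L : ZMod N)) * e (-(θ * L)) +
        ∑ t ∈ range L, (f (x + (t : ZMod N) + 1) - f (x + (t : ZMod N))) * e (-(θ * (t + 1))) := by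
  induction L with
  | zero => simp [e_zero]
  | succ L ih =>
    rw [sum_range_succ, sum_range_succ, mul_add, ih]
    have h1 : e (-(θ * ((L : ℝ) + 1))) = e (-(θ * L)) * e (-θ) := by
      rw [← e_add]; congr 1; ring
    push_cast
    rw [h1, add_assoc x (L : ZMod N) 1]
    ring

/-- high frequencies are invisible for functions of small variation -/
theorem freq_bound {f : ZMod N → ℂ} (hf : ∀ x, ‖f x‖ ≤ 1) (x : ZMod N) (L : ℕ) (hL : 1 ≤ L)
    (θ : ℝ) (h0 : 0 < |θ|) (h1 : |θ| ≤ 1 / 2) :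
    ‖𝔼 t ∈ range L, f (x + (t : ZMod N)) * e (-(θ * t))‖ ≤
      (2 + ∑ j ∈ range L, ‖f (x + (j : ZMod N) + 1) - f (x + (j : ZMod N))‖) / (4 * |θ| * L) := by
  have hL0 : (0 : ℝ) < L := by exact_mod_cast hL
  rw [expect_eq_sum_div_card, card_range, norm_div, Complex.norm_natCast,
    div_le_div_iff₀ hL0 (by positivity)]
  have h2 := four_mul_abs_le (-θ) (by rwa [abs_neg])
  rw [abs_neg] at h2
  have h3 := congrArg norm (abel5 f x θ L)
  rw [norm_mul] at h3
  have h4 : ‖f x - f (x + (L : ZMod N)) * e (-(θ * L)) +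
        ∑ t ∈ range L, (f (x + (t : ZMod N) + 1) - f (x + (t : ZMod N))) * e (-(θ * (t + 1)))‖ ≤
      2 + ∑ j ∈ range L, ‖f (x + (j : ZMod N) + 1) - f (x + (j : ZMod N))‖ := by
    refine (norm_add_le _ _).trans (add_le_add ?_ ?_)
    · refine (norm_sub_le _ _).trans ?_
      rw [norm_mul, norm_e, mul_one]
      linarith [hf x, hf (x + (L : ZMod N))]
    · refine (norm_sum_le _ _).trans (le_of_eq (sum_congr rfl fun j _ => ?_))
      rw [norm_mul, norm_e, mul_one]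
  have h5 : 4 * |θ| * ‖∑ t ∈ range L, f (x + (t : ZMod N)) * e (-(θ * t))‖ ≤
      2 + ∑ j ∈ range L, ‖f (x + (j : ZMod N) + 1) - f (x + (j : ZMod N))‖ := by
    refine le_trans ?_ h4
    rw [← h3]
    exact mul_le_mul_of_nonneg_right h2 (norm_nonneg _)
  calc _ = (4 * |θ| * ‖∑ t ∈ range L, f (x + (t : ZMod N)) * e (-(θ * t))‖) * L := by ring
    _ ≤ _ := mul_le_mul_of_nonneg_right h5 hL0.le

end Basic

end

end Pool.Agent.Helper57.NX
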