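import Pool.Agent.Helper57.NX.Defs3

/-!
# Project NX, NX-22: formal combinations of iterated differences
-/

set_option autoImplicit false

open Finset
open scoped BigOperators ComplexConjugate

namespace Pool.Agent.Helper57.NX

noncomputable section

section PhiBasics
variable {m : ℕ}

theorem VV_zero : (VV 0 : AddSubgroup (Phi m)) = ⊤ := by
  have h : {s : List ℕ × Fin m | 0 ≤ s.1.length} = Set.univ := by
    ext s; simp
  unfold VV
  rw [h, Finsupp.supported_univ]
  rfl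

theorem mem_VV5 (a : ℕ) (p : Phi m) :
    p ∈ (VV a : AddSubgroup (Phi m)) ↔ ∀ s ∈ p.support, a ≤ s.1.length := by
  unfold VV
  rw [Submodule.mem_toAddSubgroup, Finsupp.mem_supported]
  exact Iff.rfl

theorem VV_antitone : Antitone (VV : ℕ → AddSubgroup (Phi m)) := by
  intro a b hab p hp
  rw [mem_VV5] at hp ⊢
  exact fun s hs => hab.trans (hp s hs)

/-- the map on atoms -/
def cns5 (h : ℕ) (s : List ℕ × Fin m) : List ℕ × Fin m := (h :: s.1, s.2)

theorem cns5_inj (h : ℕ) : Function.Injective (cns5 (m := m) h) := by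
  rintro ⟨t, i⟩ ⟨t', i'⟩ hh
  simp only [cns5, Prod.mk.injEq, List.cons.injEq, true_and] at hh
  exact Prod.ext hh.1 hh.2

theorem tau_apply5 (h : ℕ) (p : Phi m) : tau h p = p + Finsupp.mapDomain (cns5 h) p := rfl

theorem supp_map5 (h : ℕ) (p : Phi m) {s : List ℕ × Fin m}
    (hs : s ∈ (Finsupp.mapDomain (cns5 h) p).support) : ∃ t ∈ p.support, cns5 h t = s := by
  classical
  have := Finsupp.mapDomain_support hs
  rw [Finset.mem_image] at this
  exact this

theorem tau_sub_mem (a h : ℕ) (p : Phi m) (hp : p ∈ (VV a : AddSubgroup (Phi m))) :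
    tau h p - p ∈ (VV (a + 1) : AddSubgroup (Phi m)) := by
  rw [tau_apply5, add_sub_cancel_left, mem_VV5]
  intro s hs
  obtain ⟨t, ht, rfl⟩ := supp_map5 h p hs
  rw [mem_VV5] at hp
  have := hp t ht
  simp only [cns5, List.length_cons]
  omega

/-- total weight -/
def wgt5 (p : Phi m) : ℕ := ∑ s ∈ p.support, (p s).natAbs

theorem wgt5_eq (p : Phi m) (S : Finset (List ℕ × Fin m)) (hS : p.support ⊆ S) :
    wgt5 p = ∑ s ∈ S, (p s).natAbs := by
  refine Finset.sum_subset hS fun s _ hs => ?_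
  rw [Finsupp.notMem_support_iff.1 hs]
  rfl

theorem wgt5_add (p q : Phi m) : wgt5 (p + q) ≤ wgt5 p + wgt5 q := by
  classical
  rw [wgt5_eq (p + q) (p.support ∪ q.support) Finsupp.support_add,
    wgt5_eq p (p.support ∪ q.support) Finset.subset_union_left,
    wgt5_eq q (p.support ∪ q.support) Finset.subset_union_right, ← Finset.sum_add_distrib]
  exact Finset.sum_le_sum fun s _ => Int.natAbs_add_le _ _

theorem wgt5_neg (p : Phi m) : wgt5 (-p) = wgt5 p := by
  unfold wgt5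
  rw [Finsupp.support_neg]
  exact Finset.sum_congr rfl fun s _ => by simp

theorem wgt5_map (h : ℕ) (p : Phi m) : wgt5 (Finsupp.mapDomain (cns5 h) p) = wgt5 p := by
  classical
  unfold wgt5
  rw [Finsupp.mapDomain_support_of_injective (cns5_inj h), Finset.sum_image
    (fun x _ y _ hxy => cns5_inj h hxy)]
  exact Finset.sum_congr rfl fun s _ => by rw [Finsupp.mapDomain_apply (cns5_inj h)]

theorem Bd.mono {M n n' : ℕ} {p : Phi m} (h : Bd M n p) (hn : n ≤ n') : Bd M n' p :=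
  ⟨h.1.trans hn, fun s hs => ⟨(h.2 s hs).1.trans hn, (h.2 s hs).2⟩⟩

theorem Bd.sub {M n n' : ℕ} {p q : Phi m} (h : Bd M n p) (h' : Bd M n' q) :
    Bd M (n + n') (p - q) := by
  classical
  refine ⟨?_, fun s hs => ?_⟩
  · have h1 := wgt5_add p (-q)
    rw [wgt5_neg, ← sub_eq_add_neg] at h1
    exact h1.trans (add_le_add h.1 h'.1)
  · have h1 := Finsupp.support_sub hs
    rw [Finset.mem_union] at h1
    rcases h1 with h1 | h1
    · exact ⟨(h.2 s h1).1.trans (Nat.le_add_right _ _), (h.2 s h1).2⟩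
    · exact ⟨(h'.2 s h1).1.trans (Nat.le_add_left _ _), (h'.2 s h1).2⟩

theorem Bd.tau {M n : ℕ} {p : Phi m} (h : Bd M n p) {s : ℕ} (hs : s < M) :
    Bd M (2 * n + 1) (tau s p) := by
  classical
  rw [tau_apply5]
  refine ⟨?_, fun t ht => ?_⟩
  · have h1 := wgt5_add p (Finsupp.mapDomain (cns5 s) p)
    rw [wgt5_map] at h1
    have h2 : wgt5 p ≤ n := h.1
    change wgt5 _ ≤ _
    omega
  · have h1 := Finsupp.support_add ht
    rw [Finset.mem_union] at h1
    rcases h1 with h1 | h1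
    · exact ⟨(h.2 t h1).1.trans (by omega), (h.2 t h1).2⟩
    · obtain ⟨t', ht', rfl⟩ := supp_map5 s p h1
      have h2 := h.2 t' ht'
      refine ⟨?_, fun x hx => ?_⟩
      · simp only [cns5, List.length_cons]
        omega
      · simp only [cns5, List.mem_cons] at hx
        rcases hx with rfl | hx
        · exact hs
        · exact h2.2 x hx

theorem Bd_zero (M n : ℕ) : Bd M n (0 : Phi m) := by
  refine ⟨by simp, fun s hs => ?_⟩
  simp at hs

theorem Bd_single (M : ℕ) (i : Fin m) : Bd M 1 (Finsupp.single (([] : List ℕ), i) (1 : ℤ)) := by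
  classical
  have h : (Finsupp.single (([] : List ℕ), i) (1 : ℤ)).support = {(([] : List ℕ), i)} :=
    by
      rw [Finsupp.support_single _ one_ne_zero]
  refine ⟨?_, fun s hs => ?_⟩
  · rw [h, Finset.sum_singleton, Finsupp.single_eq_same]
    rfl
  · rw [h, Finset.mem_singleton] at hs
    subst hs
    simp

/-! ### evaluation -/

theorem ev_add5 (a : Fin m → ℕ → ℤ) (p q : Phi m) (k : ℕ) :
    ev a (p + q) k = ev a p k + ev a q k := by
  unfold ev
  exact Finsupp.sum_add_index' (fun _ => by simp) (fun _ _ _ => by ring)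

theorem ev_sub (a : Fin m → ℕ → ℤ) (p q : Phi m) (k : ℕ) :
    ev a (p - q) k = ev a p k - ev a q k := by
  have h := ev_add5 a (p - q) q k
  rw [sub_add_cancel] at h
  linarith

theorem ev_zero (a : Fin m → ℕ → ℤ) (k : ℕ) : ev a (0 : Phi m) k = 0 := by
  unfold ev
  exact Finsupp.sum_zero_index

theorem ev_single (a : Fin m → ℕ → ℤ) (i : Fin m) (k : ℕ) :
    ev a (Finsupp.single (([] : List ℕ), i) (1 : ℤ)) k = a i k := by
  unfold ev
  rw [Finsupp.sum_single_index (by simp)]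
  simp [dl]

theorem ev_tau (a : Fin m → ℕ → ℤ) (h : ℕ) (p : Phi m) (k : ℕ) :
    ev a (tau h p) k = ev a p (k + h) := by
  rw [tau_apply5, ev_add5]
  have h1 : ev a (Finsupp.mapDomain (cns5 h) p) k = ev a p (k + h) - ev a p k := by
    unfold ev
    rw [Finsupp.sum_mapDomain_index (fun _ => by simp) (fun _ _ _ => by ring), ← Finsupp.sum_sub]
    refine Finsupp.sum_congr fun s _ => ?_
    simp only [cns5, dl]
    ring
  rw [h1]
  ring

theorem jet_add5 (S : Sys m) (c : Fin m → ℝ) (b : ℕ) (p q : Phi m) (y : ℝ) :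
    jet S c b (p + q) y = jet S c b p y + jet S c b q y := by
  unfold jet
  exact Finsupp.sum_add_index' (fun _ => by simp) (fun _ _ _ => by push_cast; ring)

theorem jet_sub (S : Sys m) (c : Fin m → ℝ) (b : ℕ) (p q : Phi m) (y : ℝ) :
    jet S c b (p - q) y = jet S c b p y - jet S c b q y := by
  have h := jet_add5 S c b (p - q) q y
  rw [sub_add_cancel] at h
  linarith

theorem jet_zero (S : Sys m) (c : Fin m → ℝ) (b : ℕ) (y : ℝ) : jet S c b (0 : Phi m) y = 0 := by
  unfold jet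
  exact Finsupp.sum_zero_index

theorem jet_single (S : Sys m) (c : Fin m → ℝ) (b : ℕ) (i : Fin m) (y : ℝ) :
    jet S c b (Finsupp.single (([] : List ℕ), i) (1 : ℤ)) y = S.P i * mdl S (c i) b y := by
  unfold jet
  rw [Finsupp.sum_single_index (by simp)]
  simp [dlR]

theorem jet_tau (S : Sys m) (c : Fin m → ℝ) (b h : ℕ) (p : Phi m) (y : ℝ) :
    jet S c b (tau h p) y = jet S c b p (y + h) := by
  rw [tau_apply5, jet_add5]
  have h1 : jet S c b (Finsupp.mapDomain (cns5 h) p) y = jet S c b p (y + h) - jet S c b p y := by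
    unfold jet
    rw [Finsupp.sum_mapDomain_index (fun _ => by simp) (fun _ _ _ => by push_cast; ring),
      ← Finsupp.sum_sub]
    refine Finsupp.sum_congr fun s _ => ?_
    simp only [cns5, dlR]
    ring
  rw [h1]
  ring

/-! ### derivatives -/

theorem ff_succ_right5 (γ : ℝ) (b : ℕ) : ff γ (b + 1) = ff γ b * (γ - b) := by
  unfold ff
  rw [Finset.prod_range_succ]

theorem ff_succ (γ : ℝ) (b : ℕ) : ff γ (b + 1) = γ * ff (γ - 1) b := by
  unfold ff
  rw [Finset.prod_range_succ', mul_comm]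
  congr 1
  · simp
  · refine Finset.prod_congr rfl fun i _ => ?_
    push_cast
    ring

theorem mdl_succ (S : Sys m) (γ : ℝ) (hD : 0 < S.D) (b : ℕ) (y : ℝ) :
    mdl S γ (b + 1) y = γ / S.D * mdl S (γ - 1) b y := by
  unfold mdl
  rw [ff_succ]
  have h1 : γ - ((b + 1 : ℕ) : ℝ) = γ - 1 - b := by push_cast; ring
  rw [h1, pow_succ]
  have := hD.ne'
  field_simp

theorem mdl_hasDeriv (S : Sys m) (γ : ℝ) (hD : 0 < S.D) (hρ : 0 ≤ S.ρ) (b : ℕ)
    (y : ℝ) (hy : 0 < y) : HasDerivAt (mdl S γ b) (mdl S γ (b + 1) y) y := by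
  have ht : 0 < (y + S.ρ) / S.D := by positivity
  have h1 : HasDerivAt (fun y : ℝ => (y + S.ρ) / S.D) (1 / S.D) y :=
    ((hasDerivAt_id y).add_const S.ρ).div_const S.D
  have h2 := (h1.rpow_const (p := γ - b) (Or.inl ht.ne'))
  have h3 := (h2.const_mul (ff γ b)).div_const (S.D ^ b)
  refine h3.congr_deriv ?_
  unfold mdl
  rw [ff_succ_right5]
  have h4 : γ - ((b + 1 : ℕ) : ℝ) = γ - b - 1 := by push_cast; ring
  rw [h4, pow_succ]
  have := hD.ne'
  field_simp

theorem dlR_hasDeriv5 (f f' : ℝ → ℝ) (hf : ∀ y, 0 < y → HasDerivAt f (f' y) y) (t : List ℕ) :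
    ∀ y, 0 < y → HasDerivAt (dlR t f) (dlR t f' y) y := by
  induction t with
  | nil => exact hf
  | cons h t ih =>
    intro y hy
    have h1 : HasDerivAt (fun z => dlR t f (z + h)) (dlR t f' (y + h)) y := by
      have h2 := ih (y + h) (by positivity)
      exact h2.comp_add_const y (h : ℝ)
    exact h1.sub (ih y hy)

theorem jet_hasDeriv (S : Sys m) (c : Fin m → ℝ) (hD : 0 < S.D) (hρ : 0 ≤ S.ρ) (b : ℕ) (p : Phi m)
    (y : ℝ) (hy : 0 < y) : HasDerivAt (jet S c b p) (jet S c (b + 1) p y) y := by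
  unfold jet Finsupp.sum
  have h1 := HasDerivAt.fun_sum (u := p.support)
    (A := fun s (y : ℝ) => ((p s : ℤ) : ℝ) * dlR s.1 (fun z => S.P s.2 * mdl S (c s.2) b z) y)
    (A' := fun s => ((p s : ℤ) : ℝ) * dlR s.1 (fun z => S.P s.2 * mdl S (c s.2) (b + 1) z) y)
    (x := y) (fun s _ => by
      have h2 := dlR_hasDeriv5 (fun z => S.P s.2 * mdl S (c s.2) b z)
        (fun z => S.P s.2 * mdl S (c s.2) (b + 1) z)
        (fun z hz => (mdl_hasDeriv S (c s.2) hD hρ b z hz).const_mul (S.P s.2)) s.1 y hy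
      exact h2.const_mul _)
  exact h1

/-- the model and its modulus of continuity -/
theorem mdl_bound (γ : ℝ) (b : ℕ) : ∃ C : ℝ, 0 < C ∧ ∀ (m : ℕ) (S : Sys m), 0 < S.D → 0 ≤ S.ρ →
    S.ρ ≤ S.D → ∀ y : ℝ, S.D ≤ y → y ≤ 4 * S.D → |mdl S γ b y| ≤ C / S.D ^ b := by
  refine ⟨|ff γ b| * 5 ^ |γ - b| + 1, by positivity, ?_⟩
  intro m S hD hρ hρD y hy hy4
  have h1 : 1 ≤ (y + S.ρ) / S.D := by
    rw [le_div_iff₀ hD]; linarith
  have h5 : (y + S.ρ) / S.D ≤ 5 := by
    rw [div_le_iff₀ hD]; linarith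
  have h2 : ((y + S.ρ) / S.D) ^ (γ - b) ≤ 5 ^ |γ - b| :=
    (Real.rpow_le_rpow_of_exponent_le h1 (le_abs_self _)).trans
      (Real.rpow_le_rpow (by linarith) h5 (abs_nonneg _))
  have h3 : 0 ≤ ((y + S.ρ) / S.D) ^ (γ - b) := by positivity
  unfold mdl
  rw [abs_div, abs_mul, abs_of_nonneg h3, abs_of_pos (by positivity : (0 : ℝ) < S.D ^ b)]
  refine div_le_div_of_nonneg_right ?_ (by positivity)
  have h4 := mul_le_mul_of_nonneg_left h2 (abs_nonneg (ff γ b))
  linarith

/-! ### rounding errors -/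

theorem dl_dlR5 (f : ℕ → ℤ) (g : ℝ → ℝ) (h : ∀ k : ℕ, |(f k : ℝ) - g k| ≤ 1) (t : List ℕ) :
    ∀ k : ℕ, |(dl t f k : ℝ) - dlR t g k| ≤ 2 ^ t.length := by
  induction t with
  | nil => intro k; simpa [dl, dlR] using h k
  | cons a t ih =>
    intro k
    have h1 := ih (k + a)
    have h2 := ih k
    simp only [dl, dlR, List.length_cons]
    push_cast at h1 ⊢
    have h3 : (dl t f (k + a) : ℝ) - dl t f k - (dlR t g (k + a) - dlR t g k)
        = ((dl t f (k + a) : ℝ) - dlR t g (k + a)) - ((dl t f k : ℝ) - dlR t g k) := by ring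
    rw [h3, pow_succ]
    refine (abs_sub _ _).trans ?_
    linarith

theorem sum_abs_le5 (p : Phi m) {n : ℕ} (hp : ∑ s ∈ p.support, (p s).natAbs ≤ n)
    (F : List ℕ × Fin m → ℝ) {B : ℝ} (hB : 0 ≤ B) (hF : ∀ s ∈ p.support, |F s| ≤ B) :
    |∑ s ∈ p.support, ((p s : ℤ) : ℝ) * F s| ≤ n * B := by
  refine (Finset.abs_sum_le_sum_abs _ _).trans ?_
  have h1 : ∀ s ∈ p.support, |((p s : ℤ) : ℝ) * F s| ≤ ((p s).natAbs : ℝ) * B := by
    intro s hs
    rw [abs_mul]
    have h2 : |((p s : ℤ) : ℝ)| = ((p s).natAbs : ℝ) := by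
      rw [← Int.cast_abs, Int.abs_eq_natAbs]
      rfl
    rw [h2]
    exact mul_le_mul_of_nonneg_left (hF s hs) (Nat.cast_nonneg _)
  refine (Finset.sum_le_sum h1).trans ?_
  rw [← Finset.sum_mul]
  refine mul_le_mul_of_nonneg_right ?_ hB
  exact_mod_cast hp

/-- rounding errors -/
theorem ev_jet (S : Sys m) (c : Fin m → ℝ) (M n : ℕ) (p : Phi m) (hp : Bd M n p) (k : ℕ) :
    |(ev (S.a c) p k : ℝ) - jet S c 0 p k| ≤ n * 2 ^ n := by
  have h1 : (ev (S.a c) p k : ℝ) - jet S c 0 p k = ∑ s ∈ p.support, ((p s : ℤ) : ℝ) *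
      ((dl s.1 (S.a c s.2) k : ℝ) - dlR s.1 (fun z => S.P s.2 * mdl S (c s.2) 0 z) k) := by
    unfold ev jet Finsupp.sum
    push_cast
    rw [← Finset.sum_sub_distrib]
    exact Finset.sum_congr rfl fun s _ => by ring
  rw [h1]
  refine sum_abs_le5 p hp.1 _ (by positivity) fun s hs => ?_
  refine (dl_dlR5 _ _ ?_ s.1 k).trans (pow_le_pow_right₀ (by norm_num) (hp.2 s hs).1)
  intro j
  have h2 : S.P s.2 * mdl S (c s.2) 0 j = S.P s.2 * (S.t j) ^ (c s.2) := by
    simp [mdl, ff, Sys.t]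
  simp only [h2]
  unfold Sys.a
  have h3 := Int.floor_le (S.P s.2 * (S.t j) ^ (c s.2))
  have h4 := Int.lt_floor_add_one (S.P s.2 * (S.t j) ^ (c s.2))
  rw [abs_le]
  constructor <;> linarith

theorem dlR_bound5 (g : ℕ → ℝ → ℝ) (hg : ∀ b y, 0 < y → HasDerivAt (g b) (g (b + 1) y) y)
    (y0 y1 : ℝ) (h0 : 0 < y0) (M : ℕ) (t : List ℕ) (ht : ∀ h ∈ t, h < M) :
    ∀ (b : ℕ) (C : ℝ), (∀ z, y0 ≤ z → z ≤ y1 → |g (b + t.length) z| ≤ C) →
    ∀ y, y0 ≤ y → y + t.length * M ≤ y1 → |dlR t (g b) y| ≤ (M : ℝ) ^ t.length * C := by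
  induction t with
  | nil =>
    intro b C hC y hy hy1
    simpa [dlR] using hC y hy (by simpa using hy1)
  | cons h t ih =>
    intro b C hC y hy hy1
    have hh : h < M := ht h (by simp)
    have hhM : (h : ℝ) ≤ M := by exact_mod_cast hh.le
    have hM0 : (0 : ℝ) ≤ M := Nat.cast_nonneg _
    have hh0 : (0 : ℝ) ≤ h := Nat.cast_nonneg _
    have ih' := ih (fun x hx => ht x (by simp [hx])) (b + 1) C (fun z hz hz1 => by
      have := hC z hz hz1
      simp only [List.length_cons] at this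
      rwa [show b + (t.length + 1) = b + 1 + t.length by ring] at this)
    have hlen : (((h :: t).length : ℕ) : ℝ) = t.length + 1 := by
      simp
    rw [hlen] at hy1
    have hd : ∀ z ∈ Set.Icc y (y + h),
        HasDerivWithinAt (dlR t (g b)) (dlR t (g (b + 1)) z) (Set.Icc y (y + h)) z := by
      intro z hz
      exact (dlR_hasDeriv5 (g b) (g (b + 1)) (hg b) t z (h0.trans_le (hy.trans hz.1))).hasDerivWithinAt
    have hb : ∀ z ∈ Set.Icc y (y + h), ‖dlR t (g (b + 1)) z‖ ≤ (M : ℝ) ^ t.length * C := by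
      intro z hz
      rw [Real.norm_eq_abs]
      refine ih' z (hy.trans hz.1) ?_
      have := hz.2
      nlinarith
    have h1 := (convex_Icc y (y + h)).norm_image_sub_le_of_norm_hasDerivWithin_le hd hb
      (Set.left_mem_Icc.2 (by linarith)) (Set.right_mem_Icc.2 (by linarith))
    rw [Real.norm_eq_abs, Real.norm_eq_abs, add_sub_cancel_left, abs_of_nonneg hh0] at h1
    have h2 : 0 ≤ (M : ℝ) ^ t.length * C :=
      (norm_nonneg _).trans (hb y (Set.left_mem_Icc.2 (by linarith)))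
    simp only [dlR, List.length_cons]
    rw [pow_succ]
    calc |dlR t (g b) (y + h) - dlR t (g b) y| ≤ (M : ℝ) ^ t.length * C * h := h1
      _ ≤ (M : ℝ) ^ t.length * C * M := mul_le_mul_of_nonneg_left hhM h2
      _ = (M : ℝ) ^ t.length * M * C := by ring

/-- elements of `VV R` are small -/
theorem ev_small (c : Fin m → ℝ) (n R : ℕ) : ∃ C : ℝ, 0 < C ∧ ∀ (S : Sys m) (M : ℕ) (Pm : ℝ),
    0 ≤ Pm →
    1 ≤ S.D → 0 ≤ S.ρ → S.ρ ≤ 1 → n * (M : ℝ) ≤ S.D → (∀ i, 0 ≤ S.P i ∧ S.P i ≤ Pm) →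
    ∀ p : Phi m, Bd M n p → p ∈ (VV R : AddSubgroup (Phi m)) →
    ∀ k : ℕ, S.D ≤ k → (k : ℝ) ≤ 3 * S.D →
    |(ev (S.a c) p k : ℝ)| ≤ C * (1 + Pm * ((M : ℝ) / S.D) ^ R) := by
  choose K hK0 hK using fun (γ : ℝ) (b : ℕ) => mdl_bound γ b
  set Cm : ℝ := ∑ i : Fin m, ∑ b ∈ range (n + 1), K (c i) b with hCm
  have hCm0 : 0 ≤ Cm := Finset.sum_nonneg fun i _ => Finset.sum_nonneg fun b _ => (hK0 _ _).le
  have hKle : ∀ (i : Fin m) (b : ℕ), b ≤ n → K (c i) b ≤ Cm := by
    intro i b hb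
    have h1 : K (c i) b ≤ ∑ b ∈ range (n + 1), K (c i) b :=
      Finset.single_le_sum (f := fun b => K (c i) b) (fun b _ => (hK0 _ _).le)
        (Finset.mem_range.2 (by omega))
    have h2 : ∑ b ∈ range (n + 1), K (c i) b ≤ Cm :=
      Finset.single_le_sum (f := fun i : Fin m => ∑ b ∈ range (n + 1), K (c i) b)
        (fun i _ => Finset.sum_nonneg fun b _ => (hK0 _ _).le) (Finset.mem_univ i)
    exact h1.trans h2
  refine ⟨n * (Cm + 2 ^ n) + 1, by positivity, ?_⟩
  intro S M Pm hPm hD1 hρ0 hρ1 hMD hP p hp hpR k hk hk3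
  have hD : 0 < S.D := by linarith
  have hMD0 : 0 ≤ (M : ℝ) / S.D := by positivity
  have hj := ev_jet S c M n p hp k
  have hk0 : 0 ≤ Pm * ((M : ℝ) / S.D) ^ R := by positivity
  rcases Nat.eq_zero_or_pos n with hn | hn
  · -- weight zero
    subst hn
    have hsup : p.support = ∅ := by
      by_contra hne
      obtain ⟨s, hs⟩ := Finset.nonempty_iff_ne_empty.2 hne
      have h1 : (p s).natAbs ≤ 0 :=
        (Finset.single_le_sum (f := fun s => (p s).natAbs) (fun _ _ => Nat.zero_le _) hs).trans hp.1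
      have h2 := Finsupp.mem_support_iff.1 hs
      exact h2 (Int.natAbs_eq_zero.1 (Nat.le_zero.1 h1))
    have hp0 : p = 0 := Finsupp.support_eq_empty.1 hsup
    rw [hp0, ev_zero]
    simp only [Int.cast_zero, abs_zero]
    positivity
  · have hn1 : (1 : ℝ) ≤ n := by exact_mod_cast hn
    have hMD1 : (M : ℝ) / S.D ≤ 1 := by
      rw [div_le_one hD]
      have : (M : ℝ) ≤ n * M := by nlinarith [(Nat.cast_nonneg M : (0 : ℝ) ≤ M)]
      linarith
    have hjet : |jet S c 0 p k| ≤ n * (Cm * (Pm * ((M : ℝ) / S.D) ^ R)) := by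
      unfold jet Finsupp.sum
      refine sum_abs_le5 p hp.1 _ (by positivity) fun s hs => ?_
      have hlen := (hp.2 s hs).1
      have hlt := (hp.2 s hs).2
      have hR : R ≤ s.1.length := (mem_VV5 R p).1 hpR s hs
      have hlenR : ((s.1.length : ℕ) : ℝ) ≤ n := by exact_mod_cast hlen
      have h1 := dlR_bound5 (fun b z => S.P s.2 * mdl S (c s.2) b z)
        (fun b z hz => (mdl_hasDeriv S (c s.2) hD hρ0 b z hz).const_mul (S.P s.2))
        S.D (4 * S.D) hD M s.1 hlt 0 (Pm * (Cm / S.D ^ s.1.length)) (fun z hz hz1 => by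
          have h2 := hK (c s.2) (0 + s.1.length) m S hD hρ0 (by linarith) z hz hz1
          rw [zero_add] at h2 ⊢
          rw [abs_mul, abs_of_nonneg (hP s.2).1]
          refine mul_le_mul (hP s.2).2 (h2.trans ?_) (abs_nonneg _) hPm
          exact div_le_div_of_nonneg_right (hKle s.2 _ hlen) (by positivity))
        k hk (by nlinarith [(Nat.cast_nonneg M : (0 : ℝ) ≤ M)])
      refine h1.trans ?_
      have h3 : (M : ℝ) ^ s.1.length * (Pm * (Cm / S.D ^ s.1.length))
          = Cm * (Pm * ((M : ℝ) / S.D) ^ s.1.length) := by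
        rw [div_pow]
        ring
      rw [h3]
      refine mul_le_mul_of_nonneg_left (mul_le_mul_of_nonneg_left ?_ hPm) hCm0
      exact pow_le_pow_of_le_one hMD0 hMD1 hR
    have h4 : |(ev (S.a c) p k : ℝ)| ≤ n * 2 ^ n + n * (Cm * (Pm * ((M : ℝ) / S.D) ^ R)) := by
      have h5 : (ev (S.a c) p k : ℝ) = ((ev (S.a c) p k : ℝ) - jet S c 0 p k) + jet S c 0 p k := by
        ring
      rw [h5]
      exact (abs_add_le _ _).trans (add_le_add hj hjet)
    refine h4.trans ?_
    set W := Pm * ((M : ℝ) / S.D) ^ R with hW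
    have h6 : 0 ≤ (n : ℝ) * Cm := by positivity
    have h7 : 0 ≤ (n : ℝ) * 2 ^ n * W := by positivity
    nlinarith

end PhiBasics

end

end Pool.Agent.Helper57.NX
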